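import Pool.Agent.Lib.MP_4960c7_ag.GJ.Defs

/-!
# GJ-DG: digit sums

`digit_shift`: `a = ∑_(i<f) a_i p^i`, not all `a_i = p - 1`; `p^j a mod (q-1) = ∑ a_i p^((i+j) mod f)` (congruent, and less than `q - 1`), so the sum over `j` is `(∑ a_i)(1 + p + ... + p^(f-1))`.
(Or by induction on `j`: `b = p a mod (q-1)` has the same digit sum as `a`, and `p a = b + (q-1) a_(f-1)`, `b = p a - (q - 1) a_(f-1)`; the sum of the leading digits of the `f` shifts is the digit sum of `a`.)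
`SS_frac`: `a = c (q-1)/ℓ`: `p^j a mod (q-1) = ((q-1)/ℓ) (p^j c mod ℓ)` (`Nat.mul_mod_mul_left`).
-/

namespace GJ

private theorem DG_digits {p : ℕ} (hp : 1 < p) (f : ℕ) : ∀ a : ℕ, a < p ^ f →
    ∑ i ∈ Finset.range f, a / p ^ i % p = (p.digits a).sum := by
  induction f with
  | zero =>
    intro a ha
    have : a = 0 := by simpa using ha
    subst this
    simp
  | succ f ih =>
    intro a ha
    rcases Nat.eq_zero_or_pos a with h | h
    · subst h
      simp
    · rw [Nat.digits_def' hp h, List.sum_cons, Finset.sum_range_succ', add_comm, pow_zero, Nat.div_one]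
      congr 1
      have h1 : a / p < p ^ f := by
        rw [Nat.div_lt_iff_lt_mul (by omega)]
        rw [pow_succ] at ha
        exact ha
      rw [← ih (a / p) h1]
      refine Finset.sum_congr rfl fun i _ => ?_
      rw [Nat.div_div_eq_div_mul, pow_succ, mul_comm p]

private theorem DG_B {p f a j : ℕ} (hp : 1 < p) (ha : a < p ^ f - 1) (hj : j ≤ f) :
    (p ^ j * a) % (p ^ f - 1) = (a % p ^ (f - j)) * p ^ j + a / p ^ (f - j) := by
  obtain ⟨u, hu⟩ : ∃ u, u = a / p ^ (f - j) := ⟨_, rfl⟩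
  obtain ⟨v, hv⟩ : ∃ v, v = a % p ^ (f - j) := ⟨_, rfl⟩
  have hq : 0 < p ^ (f - j) := by positivity
  have hq' : 0 < p ^ j := by positivity
  have hf : p ^ (f - j) * p ^ j = p ^ f := by rw [← pow_add, Nat.sub_add_cancel hj]
  have hdiv : a = u * p ^ (f - j) + v := by
    rw [hu, hv, mul_comm]
    exact (Nat.div_add_mod a (p ^ (f - j))).symm
  have hvlt : v < p ^ (f - j) := by rw [hv]; exact Nat.mod_lt _ hq
  have hult : u < p ^ j := by
    rw [hu, Nat.div_lt_iff_lt_mul hq, mul_comm, hf]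
    omega
  rw [← hu, ← hv]
  have h1 : p ^ j * a = (v * p ^ j + u) + u * (p ^ f - 1) := by
    have h2 : 1 ≤ p ^ f := Nat.one_le_pow _ _ (by omega)
    obtain ⟨m, hm⟩ : ∃ m, p ^ f = m + 1 := ⟨p ^ f - 1, by omega⟩
    rw [hdiv, hm, Nat.add_sub_cancel]
    have h3 : p ^ j * (u * p ^ (f - j) + v) = u * (p ^ (f - j) * p ^ j) + v * p ^ j := by ring
    rw [h3, hf, hm]
    ring
  have h4 : v * p ^ j + u < p ^ f - 1 := by
    have h5 : v * p ^ j + p ^ j ≤ p ^ f := by
      have := Nat.mul_le_mul_right (p ^ j) (Nat.succ_le_of_lt hvlt)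
      rw [hf] at this
      calc v * p ^ j + p ^ j = v.succ * p ^ j := by rw [Nat.succ_mul]
        _ ≤ p ^ f := this
    rcases Nat.lt_or_ge (v * p ^ j + u) (p ^ f - 1) with h | h
    · exact h
    · exfalso
      have h6 : v * p ^ j + u = p ^ f - 1 := by omega
      have h7 : u = p ^ j - 1 := by omega
      have h8 : v * p ^ j + p ^ j = p ^ f := by omega
      have h9 : (v + 1) * p ^ j = p ^ (f - j) * p ^ j := by rw [hf, ← h8]; ring
      have h10 : v + 1 = p ^ (f - j) := Nat.eq_of_mul_eq_mul_right hq' h9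
      have h11 : a = p ^ f - 1 := by
        rw [hdiv, h7, ← hf, ← h10]
        have : 1 ≤ p ^ j := hq'
        obtain ⟨w, hw⟩ : ∃ w, p ^ j = w + 1 := ⟨p ^ j - 1, by omega⟩
        rw [hw, Nat.add_sub_cancel]
        have : (v + 1) * (w + 1) = w * (v + 1) + v + 1 := by ring
        rw [this]
        omega
      omega
  rw [h1, Nat.add_mul_mod_self_right, Nat.mod_eq_of_lt h4]

private theorem DG_step {p f a j : ℕ} (hp : 1 < p) (hj : j < f) :
    p * ((a % p ^ (f - j)) * p ^ j + a / p ^ (f - j)) =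
      ((a % p ^ (f - (j + 1))) * p ^ (j + 1) + a / p ^ (f - (j + 1))) + (p ^ f - 1) * (a / p ^ (f - 1 - j) % p) := by
  obtain ⟨k, hk⟩ : ∃ k, k = f - (j + 1) := ⟨_, rfl⟩
  have h1 : f - j = k + 1 := by omega
  have h2 : f - 1 - j = k := by omega
  rw [← hk, h1, h2]
  have hq : 0 < p ^ k := by positivity
  have h3 : a / p ^ (k + 1) = a / p ^ k / p := by rw [pow_succ, Nat.div_div_eq_div_mul]
  obtain ⟨c, hc⟩ : ∃ c, c = a / p ^ k := ⟨_, rfl⟩
  have h4 : a = c * p ^ k + a % p ^ k := by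
    rw [hc, mul_comm]
    exact (Nat.div_add_mod a (p ^ k)).symm
  have h5 : c = p * (c / p) + c % p := (Nat.div_add_mod c p).symm
  have h6 : a % p ^ (k + 1) = (c % p) * p ^ k + a % p ^ k := by
    rw [pow_succ, Nat.mod_mul, ← hc, mul_comm (p ^ k)]
    ring
  rw [h3, ← hc, h6]
  obtain ⟨v, hv⟩ : ∃ v, v = a % p ^ k := ⟨_, rfl⟩
  obtain ⟨w, hw⟩ : ∃ w, w = c % p := ⟨_, rfl⟩
  obtain ⟨u, hu⟩ : ∃ u, u = c / p := ⟨_, rfl⟩
  rw [← hv, ← hw, ← hu]
  rw [← hw, ← hu] at h5
  rw [h5]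
  have h7 : p ^ f = p ^ k * p ^ j * p := by
    rw [← pow_add, ← pow_succ]
    congr 1
    omega
  obtain ⟨m, hm⟩ : ∃ m, p ^ f = m + 1 := ⟨p ^ f - 1, by have : 1 ≤ p ^ f := Nat.one_le_pow _ _ (by omega); omega⟩
  rw [hm, Nat.add_sub_cancel]
  have h8 : p * ((w * p ^ k + v) * p ^ j + u) = w * (p ^ k * p ^ j * p) + v * p ^ (j + 1) + p * u := by ring
  rw [h8, ← h7, hm]
  ring

theorem digit_shift {p f a : ℕ} (hp : 1 < p) (hf : 0 < f) (ha : a < p ^ f - 1) :
    (p - 1) * SS p f (p ^ f - 1) a = (p.digits a).sum * (p ^ f - 1) := by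
  obtain ⟨B, hB⟩ : ∃ B : ℕ → ℕ, B = fun j => (a % p ^ (f - j)) * p ^ j + a / p ^ (f - j) := ⟨_, rfl⟩
  have h1 : SS p f (p ^ f - 1) a = ∑ j ∈ Finset.range f, B j := by
    unfold SS
    refine Finset.sum_congr rfl fun j hj => ?_
    rw [hB]
    exact DG_B hp ha (Finset.mem_range.1 hj).le
  have haf : a < p ^ f := by omega
  have hB0 : B 0 = a := by
    rw [hB]
    simp [Nat.mod_eq_of_lt haf, Nat.div_eq_of_lt haf]
  have hBf : B f = a := by
    rw [hB]
    simp [Nat.mod_one]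
  have h2 : p * ∑ j ∈ Finset.range f, B j = ∑ j ∈ Finset.range f, B (j + 1) +
      (p ^ f - 1) * ∑ j ∈ Finset.range f, a / p ^ (f - 1 - j) % p := by
    rw [Finset.mul_sum, Finset.mul_sum, ← Finset.sum_add_distrib]
    refine Finset.sum_congr rfl fun j hj => ?_
    rw [hB]
    exact DG_step hp (Finset.mem_range.1 hj)
  have h3 : ∑ j ∈ Finset.range f, B (j + 1) = ∑ j ∈ Finset.range f, B j := by
    have h4 := Finset.sum_range_succ B f
    have h5 := Finset.sum_range_succ' B f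
    rw [h4, hBf, hB0] at h5
    omega
  have h6 : ∑ j ∈ Finset.range f, a / p ^ (f - 1 - j) % p = (p.digits a).sum := by
    rw [Finset.sum_range_reflect (fun i => a / p ^ i % p) f]
    exact DG_digits hp f a haf
  rw [h3, h6] at h2
  rw [h1, Nat.sub_mul, one_mul, h2, Nat.add_sub_cancel_left, mul_comm]

theorem SS_compl {p f m a : ℕ} (hm : 0 < m) (hcop : Nat.Coprime p m) (ha : 0 < a) (ham : a < m) : SS p f m a + SS p f m (m - a) = f * m := by
  unfold SS
  rw [← Finset.sum_add_distrib]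
  have h : ∀ j ∈ Finset.range f, p ^ j * a % m + p ^ j * (m - a) % m = m := by
    intro j _
    have h1 : (p ^ j * a % m + p ^ j * (m - a) % m) % m = 0 := by
      rw [← Nat.add_mod, ← mul_add, Nat.add_sub_cancel' ham.le, Nat.mul_mod_left]
    have h2 : 0 < p ^ j * a % m := by
      rw [Nat.pos_iff_ne_zero]
      intro h
      have h3 : m ∣ p ^ j * a := Nat.dvd_of_mod_eq_zero h
      have h4 : m ∣ a := (Nat.Coprime.pow_right j hcop.symm).dvd_of_dvd_mul_left h3
      exact absurd (Nat.le_of_dvd ha h4) (by omega)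
    have h5 := Nat.mod_lt (p ^ j * a) hm
    have h6 := Nat.mod_lt (p ^ j * (m - a)) hm
    obtain ⟨c, hc⟩ := Nat.dvd_of_mod_eq_zero h1
    have h7 : c = 1 := by
      have h8 : 0 < m * c := by omega
      have h9 : m * c < m * 2 := by omega
      have h10 : c < 2 := Nat.lt_of_mul_lt_mul_left h9
      have h11 : 0 < c := Nat.pos_of_mul_pos_left h8
      omega
    rw [hc, h7, mul_one]
  rw [Finset.sum_congr rfl h, Finset.sum_const, Finset.card_range, smul_eq_mul]

theorem SS_frac {p f m ℓ c : ℕ} (hℓ : 0 < ℓ) (h : ℓ ∣ m) : ℓ * SS p f m (c * (m / ℓ)) = m * SS p f ℓ c := by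
  obtain ⟨k, rfl⟩ := h
  rw [Nat.mul_div_cancel_left k hℓ]
  unfold SS
  rw [Finset.mul_sum, Finset.mul_sum]
  refine Finset.sum_congr rfl fun j _ => ?_
  rw [← mul_assoc, Nat.mul_mod_mul_right]
  ring

end GJ
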