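import Mathlib

/-!
# GJ: products of Gauss sums of prime orders: definitions
-/

namespace GJ

section

variable (p : ℕ) [Fact p.Prime] (F : Type) [Field F] [Algebra (ZMod p) F]

/-- The trace to the prime field, as a natural number less than `p`. -/
noncomputable def tr (x : F) : ℕ := (Algebra.trace (ZMod p) F x).val

/-- The additive character `x ↦ ζ ^ tr x`. -/
noncomputable def psi {K : Type} [Field K] {ζ : K} (hζ : ζ ^ p = 1) : AddChar F K :=
  (AddChar.zmodChar p hζ).compAddMonoidHom (Algebra.trace (ZMod p) F).toAddMonoidHom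

/-- The Gauss sum `∑ χ(x) exp(2πi tr(x)/p)`. -/
noncomputable def gs [Fintype F] (χ : MulChar F ℂ) : ℂ :=
  ∑ x, χ x * Complex.exp (2 * Real.pi * Complex.I * (tr p F x : ℂ) / (p : ℂ))

end

/-- `z` is a root of unity times `√q ^ n`. -/
def Pure (q n : ℕ) (z : ℂ) : Prop := ∃ M : ℕ, 0 < M ∧ z ^ (2 * M) = (q : ℂ) ^ (M * n)

/-- `∑_(j<f) (p^j c mod ℓ)` -/
def SS (p f ℓ c : ℕ) : ℕ := ∑ j ∈ Finset.range f, (p ^ j * c) % ℓ

theorem psi_apply (p : ℕ) [Fact p.Prime] (F : Type) [Field F] [Algebra (ZMod p) F] {K : Type} [Field K] {ζ : K}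
    (hζ : ζ ^ p = 1) (x : F) : psi p F hζ x = ζ ^ tr p F x := by
  unfold psi tr
  exact AddChar.zmodChar_apply hζ _

end GJ
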