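import Pool.Agent.Lib.MP_4960c7_ag.GJ.GA

/-!
# GJ-TR: transfer of a relation between Gauss sums from `ℂ` to another field

`transfer_poly`: `ξ`, `ξ'` primitive `N`-th roots of unity in fields of characteristic zero; an integer polynomial with zero `ξ` is divisible by the cyclotomic polynomial (`Polynomial.cyclotomic_eq_minpoly`,
`minpoly.isIntegrallyClosed_dvd`), so it vanishes at `ξ'`.
`transfer`: `γ` a generator of `Fˣ`, `N = p (q-1)`, `ξ = e(1/p) Ω(γ)`, `ξ' = ζ ω(γ)`: primitive `N`-th roots of unity (orders `p`, `q-1` coprime); `u ≡ 1 mod p`, `u ≡ 0 mod q-1`, `v ≡ 0 mod p`, `v ≡ 1 mod q-1`: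
`ξ^u = e(1/p)`, `ξ^v = Ω(γ)`, `ξ'^u = ζ`, `ξ'^v = ω(γ)`.  So `gaussSum (Ω ^ a) ψ = ∑_(k<q-1) ξ^(v a k + u tr(γ^k))`, and the same with `ξ'`, `ω`, `ζ`.  The relation is the vanishing at `ξ` of
`(∏_i ∑_k X^(v a_i k + u tr(γ^k)))^(2M) - q^(M n)`.
-/

namespace GJ

theorem transfer_poly {L K : Type} [Field L] [CharZero L] [Field K] [CharZero K] {N : ℕ} (hN : 0 < N) {ξ : L} {ξ' : K} (h : IsPrimitiveRoot ξ N)
    (h' : IsPrimitiveRoot ξ' N) (P : Polynomial ℤ) (hP : Polynomial.aeval ξ P = 0) : Polynomial.aeval ξ' P = 0 := by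
  have h1 : Polynomial.cyclotomic N ℤ ∣ P := by
    rw [Polynomial.cyclotomic_eq_minpoly h hN]
    exact minpoly.isIntegrallyClosed_dvd (h.isIntegral hN) hP
  obtain ⟨R, rfl⟩ := h1
  rw [map_mul, Polynomial.cyclotomic_eq_minpoly h' hN, minpoly.aeval, zero_mul]

private theorem TR_pow {M : Type} [Monoid M] {x : M} {n a b : ℕ} (hx : x ^ n = 1) (h : a ≡ b [MOD n]) : x ^ a = x ^ b := by
  rw [← Nat.mod_add_div a n, ← Nat.mod_add_div b n, pow_add, pow_add, pow_mul, pow_mul, hx, one_pow, one_pow, h]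

private theorem TR_eval {p : ℕ} [hp : Fact p.Prime] {F : Type} [Field F] [Fintype F] [Fintype Fˣ] [Algebra (ZMod p) F] {L : Type} [Field L]
    {ξ : L} (hξ : IsPrimitiveRoot ξ p) (Ω : MulChar F L) (γ : Fˣ) (k : Fˣ → ℕ) (hk : ∀ x, γ ^ k x = x) (hγ : γ ^ (Fintype.card F - 1) = 1) (u v : ℕ)
    (hu : u ≡ 1 [MOD p]) (hu' : u ≡ 0 [MOD Fintype.card F - 1]) (hv : v ≡ 0 [MOD p]) (hv' : v ≡ 1 [MOD Fintype.card F - 1]) (a : ℕ) :
    gaussSum (Ω ^ a) (psi p F hξ.pow_eq_one) = ∑ x : Fˣ, (ξ * Ω γ) ^ (v * (a * k x) + u * tr p F x) := by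
  have hΩγ : Ω γ ^ (Fintype.card F - 1) = 1 := by
    rw [← map_pow, ← Units.val_pow_eq_pow_val, hγ, Units.val_one, map_one]
  have e1 : (ξ * Ω γ) ^ u = ξ := by
    rw [mul_pow, TR_pow hξ.pow_eq_one hu, TR_pow hΩγ hu', pow_one, pow_zero, mul_one]
  have e2 : (ξ * Ω γ) ^ v = Ω γ := by
    rw [mul_pow, TR_pow hξ.pow_eq_one hv, TR_pow hΩγ hv', pow_one, pow_zero, one_mul]
  unfold gaussSum
  symm
  refine Fintype.sum_of_injective (fun x : Fˣ => (x : F)) Units.val_injective _ _ ?_ ?_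
  · intro x hx
    have hx0 : x = 0 := by
      by_contra h0
      exact hx ⟨Units.mk0 x h0, rfl⟩
    rw [hx0, MulChar.map_zero, zero_mul]
  · intro x
    rw [psi_apply, MulChar.pow_apply_coe, pow_add, pow_mul (ξ * Ω γ) v, pow_mul (ξ * Ω γ) u, e1, e2]
    have h1 : Ω (x : F) = Ω γ ^ k x := by
      rw [← map_pow, ← Units.val_pow_eq_pow_val, hk]
    show Ω γ ^ (a * k x) * ξ ^ tr p F x = Ω (x : F) ^ a * ξ ^ tr p F x
    rw [h1, ← pow_mul, mul_comm a]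

private theorem TR_order {F : Type} [Field F] [Fintype F] {L : Type} [Field L] (Ω : MulChar F L) (hΩ : orderOf Ω = Fintype.card F - 1)
    (γ : Fˣ) (hγ : ∀ x : Fˣ, ∃ k : ℕ, γ ^ k = x) (hγ1 : γ ^ (Fintype.card F - 1) = 1) : IsPrimitiveRoot (Ω γ) (Fintype.card F - 1) := by
  constructor
  · rw [← map_pow, ← Units.val_pow_eq_pow_val, hγ1, Units.val_one, map_one]
  · intro m hm
    rw [← hΩ]
    apply orderOf_dvd_of_pow_eq_one
    ext x
    obtain ⟨k, rfl⟩ := hγ x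
    rw [MulChar.pow_apply_coe, MulChar.one_apply_coe, Units.val_pow_eq_pow_val, map_pow, ← pow_mul, mul_comm, pow_mul, hm, one_pow]

private theorem TR_prim {L : Type} [Field L] {ξ η : L} {a b : ℕ} (hξ : IsPrimitiveRoot ξ a) (hη : IsPrimitiveRoot η b) (hab : Nat.Coprime a b) :
    IsPrimitiveRoot (ξ * η) (a * b) := by
  have h1 : orderOf (ξ * η) = a * b := by
    rw [hξ.eq_orderOf, hη.eq_orderOf]
    apply (Commute.all ξ η).orderOf_mul_eq_mul_orderOf_of_coprime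
    rw [← hξ.eq_orderOf, ← hη.eq_orderOf]
    exact hab
  rw [← h1]
  exact IsPrimitiveRoot.orderOf _

private theorem TR_cop {p : ℕ} [hp : Fact p.Prime] (F : Type) [Field F] [Fintype F] [Algebra (ZMod p) F] : Nat.Coprime p (Fintype.card F - 1) := by
  have h0 : CharP F p := charP_of_injective_algebraMap (algebraMap (ZMod p) F).injective p
  obtain ⟨n, -, hn⟩ := FiniteField.card F p
  rw [hn, Nat.coprime_comm]
  have h1 : 0 < p ^ (n : ℕ) := pow_pos hp.out.pos _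
  have h2 : Nat.Coprime (p ^ (n : ℕ) - 1) (p ^ (n : ℕ)) := by
    obtain ⟨t, ht⟩ := Nat.exists_eq_succ_of_ne_zero h1.ne'
    rw [ht]
    simp
  exact Nat.Coprime.coprime_dvd_right (dvd_pow_self p n.pos.ne') h2

open Polynomial in
private theorem TR_poly {p : ℕ} [hp : Fact p.Prime] {F : Type} [Field F] [Fintype F] [Fintype Fˣ] [Algebra (ZMod p) F] {L : Type} [Field L]
    {ξ : L} (hξ : IsPrimitiveRoot ξ p) (Ω : MulChar F L) (γ : Fˣ) (k : Fˣ → ℕ) (hk : ∀ x, γ ^ k x = x) (hγ : γ ^ (Fintype.card F - 1) = 1) (u v : ℕ)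
    (hu : u ≡ 1 [MOD p]) (hu' : u ≡ 0 [MOD Fintype.card F - 1]) (hv : v ≡ 0 [MOD p]) (hv' : v ≡ 1 [MOD Fintype.card F - 1])
    {ι : Type} [Fintype ι] (a : ι → ℕ) (M n : ℕ) :
    aeval (ξ * Ω γ) ((∏ i, ∑ x : Fˣ, (X : ℤ[X]) ^ (v * (a i * k x) + u * tr p F x)) ^ (2 * M) - C ((Fintype.card F : ℤ) ^ (M * n))) =
      (∏ i, gaussSum (Ω ^ a i) (psi p F hξ.pow_eq_one)) ^ (2 * M) - (Fintype.card F : L) ^ (M * n) := by
  rw [map_sub, map_pow, map_prod, aeval_C]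
  have h1 : ∀ i, aeval (ξ * Ω γ) (∑ x : Fˣ, (X : ℤ[X]) ^ (v * (a i * k x) + u * tr p F x)) = gaussSum (Ω ^ a i) (psi p F hξ.pow_eq_one) := by
    intro i
    rw [TR_eval hξ Ω γ k hk hγ u v hu hu' hv hv' (a i), map_sum]
    refine Finset.sum_congr rfl fun x _ => ?_
    rw [map_pow, aeval_X]
  rw [Finset.prod_congr rfl fun i _ => h1 i]
  congr 1
  rw [map_pow, map_natCast]

theorem transfer {p : ℕ} [hp : Fact p.Prime] {F : Type} [Field F] [Fintype F] [Algebra (ZMod p) F] {L K : Type} [Field L] [CharZero L] [Field K] [CharZero K]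
    {ξ : L} (hξ : IsPrimitiveRoot ξ p) {ζ : K} (hζ : IsPrimitiveRoot ζ p) (Ω : MulChar F L) (hΩ : orderOf Ω = Fintype.card F - 1) (ω : MulChar F K)
    (hω : orderOf ω = Fintype.card F - 1) {ι : Type} [Fintype ι] (a : ι → ℕ) (M n : ℕ)
    (h : (∏ i, gaussSum (Ω ^ a i) (psi p F hξ.pow_eq_one)) ^ (2 * M) = (Fintype.card F : L) ^ (M * n)) :
    (∏ i, gaussSum (ω ^ a i) (psi p F hζ.pow_eq_one)) ^ (2 * M) = (Fintype.card F : K) ^ (M * n) := by
  classical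
  obtain ⟨γ, hγ⟩ := IsCyclic.exists_monoid_generator (α := Fˣ)
  have hγ' : ∀ x : Fˣ, ∃ k : ℕ, γ ^ k = x := fun x => (Submonoid.mem_powers_iff _ _).1 (hγ x)
  choose k hk using hγ'
  have hγ1 : γ ^ (Fintype.card F - 1) = 1 := by
    have h1 := FiniteField.pow_card_sub_one_eq_one (γ : F) γ.ne_zero
    exact Units.ext (by rw [Units.val_pow_eq_pow_val, h1, Units.val_one])
  have hcop : Nat.Coprime p (Fintype.card F - 1) := TR_cop F
  obtain ⟨u, hu, hu'⟩ := Nat.chineseRemainder hcop 1 0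
  obtain ⟨v, hv, hv'⟩ := Nat.chineseRemainder hcop 0 1
  have hq : 0 < Fintype.card F - 1 := by
    have := Fintype.one_lt_card (α := F)
    omega
  have hN : 0 < p * (Fintype.card F - 1) := Nat.mul_pos hp.out.pos hq
  have p1 := TR_prim hξ (TR_order Ω hΩ γ (fun x => ⟨k x, hk x⟩) hγ1) hcop
  have p2 := TR_prim hζ (TR_order ω hω γ (fun x => ⟨k x, hk x⟩) hγ1) hcop
  have q1 := TR_poly hξ Ω γ k hk hγ1 u v hu hu' hv hv' a M n
  have q2 := TR_poly hζ ω γ k hk hγ1 u v hu hu' hv hv' a M n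
  rw [h, sub_self] at q1
  have q3 := transfer_poly hN p1 p2 _ q1
  rw [q2] at q3
  exact sub_eq_zero.1 q3

end GJ
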