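import Pool.Agent.Lib.MP_4960c7_ag.GJ.ST
import Pool.Agent.Lib.MP_4960c7_ag.GJ.TR

/-!
# GJ-FA: the relation between the norms

`K = PadicAlgCl p`: normed, ultrametric, algebraically closed, characteristic zero, `‖p‖ = 1/p < 1` (Mathlib/NumberTheory/Padics/Complex.lean).  `gs_eq`: `exp(2πi n/p) = exp(2πi/p)^n`.
`exists_teich`: `ω`.  `transfer` with `Ω` and `(ω⁻¹)^t` (of order `q - 1`, `t` prime to `q - 1`), `a i = c i (q-1)/ℓ i`: `∏ g_i ^ (2 M) = q ^ (M n)` in `K`, `g_i = gaussSum (ω⁻¹ ^ (t a_i)) ψ`, and the exponent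
`t c_i (q-1)/ℓ_i` can be replaced by `((t c_i) mod ℓ_i) (q-1)/ℓ_i` (they are congruent modulo `q - 1`), `ℓ_i` does not divide `t c_i`.  `stick`: `‖g_i‖ ^ ℓ_i = ‖p‖ ^ SS_i`, `SS_i = SS p f (ℓ i) (t c_i)`.
Take norms and the power `Λ = ∏ ℓ_i`: `‖p‖ ^ (∑ 2 M SS_i Λ/ℓ_i) = ‖p‖ ^ (f M n Λ)`, compare exponents.
-/

namespace GJ

theorem gs_eq {p : ℕ} [hp : Fact p.Prime] {F : Type} [Field F] [Fintype F] [Algebra (ZMod p) F] (χ : MulChar F ℂ) :
    gs p F χ = gaussSum χ (psi p F (Complex.isPrimitiveRoot_exp p hp.out.ne_zero).pow_eq_one) := by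
  unfold gs gaussSum
  refine Finset.sum_congr rfl fun x _ => ?_
  rw [psi_apply, ← Complex.exp_nat_mul]
  congr 2
  ring

/-- The relation between the norms for general orders: `m i` does not divide `t * c i`. -/
theorem norm_gen {p : ℕ} [hp : Fact p.Prime] {F : Type} [Field F] [Fintype F] [Algebra (ZMod p) F] {f : ℕ} (hf : Fintype.card F = p ^ f)
    (Ω : MulChar F ℂ) (hΩ : orderOf Ω = Fintype.card F - 1) {ι : Type} [Fintype ι] (m c : ι → ℕ) (hd : ∀ i, m i ∣ Fintype.card F - 1)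
    (h : Pure (Fintype.card F) (Fintype.card ι) (∏ i, gs p F (Ω ^ (c i * ((Fintype.card F - 1) / m i))))) (t : ℕ)
    (ht : t.Coprime (Fintype.card F - 1)) (hc : ∀ i, ¬ m i ∣ t * c i) :
    ∑ i, (SS p f (m i) (t * c i) : ℚ) / (m i : ℚ) = (f : ℚ) * (Fintype.card ι : ℚ) / 2 := by
  have hq1 : 1 < Fintype.card F := Fintype.one_lt_card
  have hm0 : ∀ i, 0 < m i := fun i => Nat.pos_of_dvd_of_pos (hd i) (by omega)
  -- the norm of `p`
  have hpn : ‖(p : PadicAlgCl p)‖ = (p : ℝ)⁻¹ := by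
    rw [← map_natCast (algebraMap ℚ_[p] (PadicAlgCl p))]
    have h1 := PadicAlgCl.norm_extends p (p : ℚ_[p])
    rw [Padic.norm_p] at h1
    exact h1
  have hp0 : (1 : ℝ) < p := by exact_mod_cast hp.out.one_lt
  have hx0 : 0 < ‖(p : PadicAlgCl p)‖ := by
    rw [hpn]
    exact inv_pos.2 (by linarith)
  have hx1 : ‖(p : PadicAlgCl p)‖ < 1 := by
    rw [hpn]
    exact inv_lt_one_of_one_lt₀ hp0
  have : NeZero (p : PadicAlgCl p) := ⟨fun h0 => by rw [h0, norm_zero] at hx0; exact lt_irrefl _ hx0⟩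
  obtain ⟨ζ, hζ⟩ := HasEnoughRootsOfUnity.exists_primitiveRoot (PadicAlgCl p) p
  obtain ⟨ω, hω, k, _, ρ, iF, ho, hρ, hi⟩ := exists_teich (K := PadicAlgCl p) hx1 F
  obtain ⟨M, hM, hP⟩ := h
  -- the transfer
  have ho' : orderOf (ω⁻¹ ^ t) = Fintype.card F - 1 := by
    rw [Nat.Coprime.orderOf_pow, orderOf_inv, ho]
    rw [orderOf_inv, ho]
    exact ht.symm
  have hT := transfer (Complex.isPrimitiveRoot_exp p hp.out.ne_zero) hζ Ω hΩ (ω⁻¹ ^ t) ho'
    (fun i => c i * ((Fintype.card F - 1) / m i)) M (Fintype.card ι) (by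
      rw [← hP]
      congr 1
      exact Finset.prod_congr rfl fun i _ => (gs_eq _).symm)
  -- the norms of the factors
  have hone : (ω⁻¹) ^ (Fintype.card F - 1) = 1 := by
    rw [inv_pow, ← ho, pow_orderOf_eq_one, inv_one]
  have hst : ∀ i, ‖gaussSum ((ω⁻¹ ^ t) ^ (c i * ((Fintype.card F - 1) / m i))) (psi p F hζ.pow_eq_one)‖ ^ m i =
      ‖(p : PadicAlgCl p)‖ ^ SS p f (m i) (t * c i) := by
    intro i
    have h1 : 0 < (t * c i) % m i := Nat.pos_of_ne_zero fun h0 => hc i (Nat.dvd_of_mod_eq_zero h0)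
    have h2 : (t * c i) % m i < m i := Nat.mod_lt _ (hm0 i)
    have h3 := stick hx1 hζ ω hω ho ρ iF hρ hi hf (hd i) h1 h2
    have h4 : SS p f (m i) ((t * c i) % m i) = SS p f (m i) (t * c i) := by
      unfold SS
      refine Finset.sum_congr rfl fun j _ => ?_
      rw [Nat.mul_mod_mod]
    have h5 : (ω⁻¹ ^ t) ^ (c i * ((Fintype.card F - 1) / m i)) = ω⁻¹ ^ ((t * c i) % m i * ((Fintype.card F - 1) / m i)) := by
      obtain ⟨e, he⟩ := hd i
      have h6 : (Fintype.card F - 1) / m i = e := by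
        rw [he, Nat.mul_div_cancel_left _ (hm0 i)]
      rw [h6, ← pow_mul]
      have h7 : t * (c i * e) = (Fintype.card F - 1) * ((t * c i) / m i) + (t * c i) % m i * e := by
        have h8 := Nat.mod_add_div (t * c i) (m i)
        calc t * (c i * e) = (t * c i) * e := by ring
          _ = ((t * c i) % m i + m i * ((t * c i) / m i)) * e := by rw [h8]
          _ = (m i * e) * ((t * c i) / m i) + (t * c i) % m i * e := by ring
          _ = _ := by rw [← he]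
      rw [h7, pow_add, pow_mul, hone, one_pow, one_mul]
    rw [h5, ← h4]
    exact h3
  -- logarithms
  have hxl : Real.log ‖(p : PadicAlgCl p)‖ ≠ 0 := (Real.log_neg hx0 hx1).ne
  have hN : ∀ i, Real.log ‖gaussSum ((ω⁻¹ ^ t) ^ (c i * ((Fintype.card F - 1) / m i))) (psi p F hζ.pow_eq_one)‖ =
      (SS p f (m i) (t * c i) : ℝ) / (m i : ℝ) * Real.log ‖(p : PadicAlgCl p)‖ := by
    intro i
    have h1 := congrArg Real.log (hst i)
    rw [Real.log_pow, Real.log_pow] at h1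
    have h2 : (m i : ℝ) ≠ 0 := by exact_mod_cast (hm0 i).ne'
    rw [div_mul_eq_mul_div, ← h1]
    field_simp
  have hN0 : ∀ i, ‖gaussSum ((ω⁻¹ ^ t) ^ (c i * ((Fintype.card F - 1) / m i))) (psi p F hζ.pow_eq_one)‖ ≠ 0 := by
    intro i h0
    have h1 := hst i
    rw [h0, zero_pow (hm0 i).ne'] at h1
    exact (pow_pos hx0 _).ne h1
  have hL := congrArg (fun z => Real.log ‖z‖) hT
  simp only [norm_pow, norm_prod] at hL
  rw [Real.log_pow, Real.log_pow, Real.log_prod (fun i _ => hN0 i), Finset.sum_congr rfl fun i _ => hN i, ← Finset.sum_mul, hf, Nat.cast_pow,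
    norm_pow, Real.log_pow] at hL
  have hM' : (M : ℝ) ≠ 0 := by exact_mod_cast hM.ne'
  push_cast at hL
  have hR : ∑ i, (SS p f (m i) (t * c i) : ℝ) / (m i : ℝ) = (f : ℝ) * (Fintype.card ι : ℝ) / 2 := by
    have h1 : (2 * (M : ℝ) * Real.log ‖(p : PadicAlgCl p)‖) * (∑ i, (SS p f (m i) (t * c i) : ℝ) / (m i : ℝ)) =
        (2 * (M : ℝ) * Real.log ‖(p : PadicAlgCl p)‖) * ((f : ℝ) * (Fintype.card ι : ℝ) / 2) := by
      linear_combination hL
    exact mul_left_cancel₀ (mul_ne_zero (mul_ne_zero two_ne_zero hM') hxl) h1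
  apply Rat.cast_injective (α := ℝ)
  push_cast
  exact hR

theorem norm_rel {p : ℕ} [hp : Fact p.Prime] {F : Type} [Field F] [Fintype F] [Algebra (ZMod p) F] {f : ℕ} (hf : Fintype.card F = p ^ f)
    (Ω : MulChar F ℂ) (hΩ : orderOf Ω = Fintype.card F - 1) {ι : Type} [Fintype ι] (ℓ c : ι → ℕ) (hℓ : ∀ i, (ℓ i).Prime) (hd : ∀ i, ℓ i ∣ Fintype.card F - 1)
    (hc : ∀ i, ¬ ℓ i ∣ c i)
    (h : Pure (Fintype.card F) (Fintype.card ι) (∏ i, gs p F (Ω ^ (c i * ((Fintype.card F - 1) / ℓ i))))) (t : ℕ)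
    (ht : t.Coprime (Fintype.card F - 1)) :
    ∑ i, (SS p f (ℓ i) (t * c i) : ℚ) / (ℓ i : ℚ) = (f : ℚ) * (Fintype.card ι : ℚ) / 2 :=
  norm_gen hf Ω hΩ ℓ c hd h t ht fun i h1 => by
    rcases (hℓ i).dvd_mul.1 h1 with h2 | h2
    · exact (hℓ i).one_lt.ne' (Nat.dvd_one.1 (ht ▸ Nat.dvd_gcd h2 (hd i)))
    · exact hc i h2

end GJ
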