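import Pool.Agent.Lib.MP_4960c7_ag.GJ.NF

/-!
# GJ-GA: norms of Gauss sums, formal properties

`gs_super`: if `χ φ ≠ 1`: `jacobiSum_mul_nontrivial`, Jacobi sums have norm `≤ 1`.  If `χ φ = 1`, the right side is the norm of `∑_(x ≠ 0) ψ x = -1`, and the left side is `≤ 1`.
`gs_compl`: `gaussSum_mul_gaussSum_eq_card` (`χ(-1)` has norm one, `gaussSum χ⁻¹ ψ⁻¹ = χ⁻¹(-1) gaussSum χ⁻¹ ψ`: `mul_gaussSum_inv_eq_gaussSum`).
`gs_frob`: `∑ χ(x)^p ζ^tr x = ∑ χ(x^p) ζ^tr(x^p)`, the trace is invariant under the Frobenius automorphism.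
-/

namespace GJ

variable {K : Type} [NormedField K] [IsUltrametricDist K] [CharZero K] {p : ℕ} [hp : Fact p.Prime] {F : Type} [Field F] [Fintype F] [Algebra (ZMod p) F]

private theorem GA_ne_one {ζ : K} (hζ : IsPrimitiveRoot ζ p) : psi p F hζ.pow_eq_one ≠ 1 := by
  intro h
  have h0 : FiniteDimensional (ZMod p) F := inferInstance
  obtain ⟨x, hx⟩ := Algebra.trace_surjective (ZMod p) F 1
  have h1 : psi p F hζ.pow_eq_one x = 1 := by rw [h, AddChar.one_apply]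
  rw [psi_apply] at h1
  have h2 : tr p F x = 1 := by
    unfold tr
    rw [hx, ZMod.val_one'' hp.out.ne_one]
  rw [h2, pow_one] at h1
  exact hζ.ne_one hp.out.one_lt h1

theorem psi_ne_one {ζ : K} (hζ : IsPrimitiveRoot ζ p) : (psi p F hζ.pow_eq_one).IsPrimitive :=
  AddChar.IsPrimitive.of_ne_one (GA_ne_one hζ)

private theorem GA_chi (χ : MulChar F K) {a : F} (ha : a ≠ 0) : ‖χ a‖ = 1 := by
  have h0 : 0 < Fintype.card F - 1 := by
    have := Fintype.one_lt_card (α := F)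
    omega
  refine norm_root h0 ?_
  rw [← map_pow, FiniteField.pow_card_sub_one_eq_one a ha, map_one]

private theorem GA_chi_le (χ : MulChar F K) (a : F) : ‖χ a‖ ≤ 1 := by
  rcases eq_or_ne a 0 with rfl | ha
  · rw [MulChar.map_zero, norm_zero]
    exact zero_le_one
  · exact (GA_chi χ ha).le

private theorem GA_psi {ζ : K} (hζ : ζ ^ p = 1) (a : F) : ‖psi p F hζ a‖ = 1 := by
  refine norm_root hp.out.pos ?_
  rw [psi_apply, ← pow_mul, mul_comm, pow_mul, hζ, one_pow]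

theorem gs_le_one {ζ : K} (hζ : IsPrimitiveRoot ζ p) (χ : MulChar F K) : ‖gaussSum χ (psi p F hζ.pow_eq_one)‖ ≤ 1 := by
  unfold gaussSum
  refine IsUltrametricDist.norm_sum_le_of_forall_le_of_nonneg zero_le_one fun a _ => ?_
  rw [norm_mul, GA_psi, mul_one]
  exact GA_chi_le χ a

theorem gs_triv {ζ : K} (hζ : IsPrimitiveRoot ζ p) : gaussSum (1 : MulChar F K) (psi p F hζ.pow_eq_one) = -1 :=
  gaussSum_one_left (GA_ne_one hζ)

theorem gs_super {ζ : K} (hζ : IsPrimitiveRoot ζ p) (χ φ : MulChar F K) :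
    ‖gaussSum χ (psi p F hζ.pow_eq_one)‖ * ‖gaussSum φ (psi p F hζ.pow_eq_one)‖ ≤ ‖gaussSum (χ * φ) (psi p F hζ.pow_eq_one)‖ := by
  by_cases h : χ * φ = 1
  · rw [h, gs_triv hζ, norm_neg, norm_one]
    exact mul_le_one₀ (gs_le_one hζ χ) (norm_nonneg _) (gs_le_one hζ φ)
  · have h1 := congrArg norm (jacobiSum_mul_nontrivial h (psi p F hζ.pow_eq_one))
    rw [norm_mul, norm_mul] at h1
    rw [← h1]
    refine mul_le_of_le_one_right (norm_nonneg _) ?_
    unfold jacobiSum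
    refine IsUltrametricDist.norm_sum_le_of_forall_le_of_nonneg zero_le_one fun a _ => ?_
    rw [norm_mul]
    exact mul_le_one₀ (GA_chi_le χ a) (norm_nonneg _) (GA_chi_le φ _)

theorem gs_compl {ζ : K} (hζ : IsPrimitiveRoot ζ p) {χ : MulChar F K} (h : χ ≠ 1) :
    ‖gaussSum χ (psi p F hζ.pow_eq_one)‖ * ‖gaussSum χ⁻¹ (psi p F hζ.pow_eq_one)‖ = ‖(Fintype.card F : K)‖ := by
  have h1 := congrArg norm (gaussSum_mul_gaussSum_eq_card h (psi_ne_one (F := F) hζ))
  have h2 := congrArg norm (mul_gaussSum_inv_eq_gaussSum χ⁻¹ (psi p F hζ.pow_eq_one))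
  rw [norm_mul, GA_chi χ⁻¹ (neg_ne_zero.2 one_ne_zero), one_mul] at h2
  rw [norm_mul, h2] at h1
  exact h1

/-- (for every field of values) -/
theorem gs_frob {L : Type} [Field L] {ζ : L} (hζ : ζ ^ p = 1) (χ : MulChar F L) :
    gaussSum (χ ^ p) (psi p F hζ) = gaussSum χ (psi p F hζ) := by
  have h0 : FiniteDimensional (ZMod p) F := inferInstance
  let σ : F ≃ₐ[ZMod p] F := FiniteField.frobeniusAlgEquivOfAlgebraic (ZMod p) F
  have hσ : ∀ x, σ x = x ^ p := by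
    intro x
    show x ^ Fintype.card (ZMod p) = x ^ p
    rw [ZMod.card]
  unfold gaussSum
  rw [← Equiv.sum_comp σ.toEquiv (fun a => χ a * psi p F hζ a)]
  refine Finset.sum_congr rfl fun x _ => ?_
  show (χ ^ p) x * psi p F hζ x = χ (σ x) * psi p F hζ (σ x)
  have h1 : tr p F (σ x) = tr p F x := by
    unfold tr
    rw [Algebra.trace_eq_of_algEquiv σ x]
  rw [psi_apply, psi_apply, h1, MulChar.pow_apply' χ hp.out.ne_zero, hσ, map_pow]

end GJ
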