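import Pool.Agent.Lib.MP_4960c7_ag.GJ.TE
import Pool.Agent.Lib.MP_4960c7_ag.GJ.GA

/-!
# GJ-GB: the norm of the Gauss sum of `ω⁻¹`

`ζ ^ n = 1 + n (ζ - 1) + O((ζ - 1)^2)` for natural `n`, so `g(ω⁻¹) = ∑_x ω⁻¹(x) + (ζ - 1) ∑_x ω⁻¹(x) tr(x) + O((ζ - 1)^2)`; the first sum is zero (`ω⁻¹ ≠ 1` if `q > 2`; for `q = 2` it is `1`... treat
`q = 2` separately: `ω = 1`, `g = -1`; so the hypothesis `2 < q`).  The residue of the second sum is `iF (∑_(x ≠ 0) x⁻¹ Tr(x)) = iF (∑_(j<f) ∑_(x ≠ 0) x^(p^j - 1)) = -1` (`FiniteField.sum_pow_units`: only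
`j = 0` contributes, `q - 1` does not divide `p^j - 1` for `0 < j < f`; `Tr x = ∑_(j<f) x^(p^j)`, `FiniteField.algebraMap_trace_eq_sum_pow`), so this sum has norm one.
-/

namespace GJ

variable {K : Type} [NormedField K] [IsUltrametricDist K] [CharZero K] {p : ℕ} [hp : Fact p.Prime] {F : Type} [Field F] [Fintype F] [Algebra (ZMod p) F]

/-- `∑ x⁻¹ Tr(x) = -1` -/
private theorem sum_inv_trace (h2 : 2 < Fintype.card F) :
    ∑ x : F, x⁻¹ * algebraMap (ZMod p) F (Algebra.trace (ZMod p) F x) = -1 := by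
  classical
  have hpp : p.Prime := Fact.out
  have hfin : Module.Finite (ZMod p) F := Module.Finite.of_finite
  have hcard : Fintype.card F = p ^ Module.finrank (ZMod p) F := by
    rw [Module.card_eq_pow_finrank (K := ZMod p) (V := F), ZMod.card]
  have hf : 0 < Module.finrank (ZMod p) F := Module.finrank_pos
  have h1 : ∀ x : F, x⁻¹ * algebraMap (ZMod p) F (Algebra.trace (ZMod p) F x) =
      ∑ i ∈ Finset.range (Module.finrank (ZMod p) F), x⁻¹ * x ^ (p ^ i) := by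
    intro x
    rw [FiniteField.algebraMap_trace_eq_sum_pow, Finset.mul_sum, Nat.card_zmod]
  rw [Finset.sum_congr rfl fun x _ => h1 x, Finset.sum_comm, Finset.sum_eq_single 0]
  · have h3 : ∀ x : F, x⁻¹ * x ^ (p ^ 0) = 1 - if x = 0 then 1 else 0 := by
      intro x
      rw [pow_zero, pow_one]
      by_cases hx : x = 0
      · rw [hx]
        simp
      · rw [if_neg hx, inv_mul_cancel₀ hx, sub_zero]
    rw [Finset.sum_congr rfl fun x _ => h3 x, Finset.sum_sub_distrib, Finset.sum_ite_eq' Finset.univ (0 : F),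
      if_pos (Finset.mem_univ _), Finset.sum_const, Finset.card_univ, nsmul_eq_mul, mul_one, FiniteField.cast_card_eq_zero,
      zero_sub]
  · intro j hj hj0
    have hj' := Finset.mem_range.mp hj
    have hlt : p ^ j < p ^ Module.finrank (ZMod p) F := Nat.pow_lt_pow_right hpp.one_lt hj'
    have hgt : 1 < p ^ j := Nat.one_lt_pow hj0 hpp.one_lt
    have h3 : ∀ x : F, x⁻¹ * x ^ (p ^ j) = x ^ (p ^ j - 1) := by
      intro x
      by_cases hx : x = 0
      · rw [hx, zero_pow (by omega), zero_pow (by omega), mul_zero]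
      · obtain ⟨k, hk⟩ : ∃ k, p ^ j = k + 1 := ⟨p ^ j - 1, by omega⟩
        rw [hk, Nat.add_sub_cancel, pow_succ, mul_comm (x ^ k) x, inv_mul_cancel_left₀ hx]
    rw [Finset.sum_congr rfl fun x _ => h3 x]
    have h4 : p ^ j - 1 < Fintype.card F - 1 := by
      rw [hcard]
      omega
    exact FiniteField.sum_pow_lt_card_sub_one _ _ h4
  · intro h
    exact absurd (Finset.mem_range.mpr hf) h

omit [CharZero K] in
/-- `ζ ^ n = 1 + n (ζ - 1) + O((ζ - 1)^2)` -/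
private theorem pow_expand {ζ : K} (h : ‖ζ - 1‖ ≤ 1) (n : ℕ) : ∃ c : OK K, ζ ^ n = 1 + n * (ζ - 1) + (ζ - 1) ^ 2 * (c : K) := by
  induction n with
  | zero => exact ⟨0, by simp⟩
  | succ n ih =>
    obtain ⟨c, hc⟩ := ih
    refine ⟨c + (n : OK K) + (⟨ζ - 1, h⟩ : OK K) * c, ?_⟩
    rw [pow_succ, hc]
    push_cast
    ring

theorem gs_teich (hpK : ‖(p : K)‖ < 1) {ζ : K} (hζ : IsPrimitiveRoot ζ p) (h2 : 2 < Fintype.card F) (ω : MulChar F K) (hω : ∀ x, ω x ∈ OK K)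
    (ho : orderOf ω = Fintype.card F - 1) {k : Type} [Field k] (ρ : OK K →+* k) (iF : F →+* k) (hρ : ∀ y : OK K, ρ y = 0 ↔ ‖(y : K)‖ < 1)
    (hi : ∀ x, ρ ⟨ω x, hω x⟩ = iF x) : ‖gaussSum ω⁻¹ (psi p F hζ.pow_eq_one)‖ = ‖ζ - 1‖ := by
  classical
  obtain ⟨hlt, hpos⟩ := norm_zeta_lt hpK hζ
  have hc := fun n => pow_expand hlt.le n
  choose c hc using hc
  have hne : ω⁻¹ ≠ 1 := by
    intro h
    rw [inv_eq_one] at h
    rw [h, orderOf_one] at ho
    omega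
  obtain ⟨B, hB⟩ : ∃ B : OK K, B = ∑ x : F, (⟨ω x⁻¹, hω x⁻¹⟩ : OK K) * (tr p F x : OK K) := ⟨_, rfl⟩
  obtain ⟨C, hC⟩ : ∃ C : OK K, C = ∑ x : F, (⟨ω x⁻¹, hω x⁻¹⟩ : OK K) * c (tr p F x) := ⟨_, rfl⟩
  have hG : gaussSum ω⁻¹ (psi p F hζ.pow_eq_one) = (ζ - 1) * (B : K) + (ζ - 1) ^ 2 * (C : K) := by
    have h1 : ∀ x : F, ω⁻¹ x * psi p F hζ.pow_eq_one x = ω⁻¹ x + (ζ - 1) * (ω x⁻¹ * (tr p F x : K)) +
        (ζ - 1) ^ 2 * (ω x⁻¹ * (c (tr p F x) : K)) := by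
      intro x
      rw [psi_apply, hc (tr p F x), MulChar.inv_apply']
      ring
    unfold gaussSum
    rw [Finset.sum_congr rfl fun x _ => h1 x, Finset.sum_add_distrib, Finset.sum_add_distrib, MulChar.sum_eq_zero_of_ne_one hne,
      zero_add, ← Finset.mul_sum, ← Finset.mul_sum, hB, hC]
    congr 2
    · push_cast
      rfl
    · push_cast
      rfl
  have hρB : ρ B = -1 := by
    have h1 : ∀ x : F, ((tr p F x : ℕ) : F) = algebraMap (ZMod p) F (Algebra.trace (ZMod p) F x) := by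
      intro x
      unfold tr
      rw [← map_natCast (algebraMap (ZMod p) F), ZMod.natCast_zmod_val]
    have h2' : ρ B = iF (∑ x : F, x⁻¹ * algebraMap (ZMod p) F (Algebra.trace (ZMod p) F x)) := by
      rw [hB, map_sum, map_sum]
      refine Finset.sum_congr rfl fun x _ => ?_
      rw [map_mul, map_mul, hi, ← h1 x, map_natCast, map_natCast]
    rw [h2', sum_inv_trace h2, map_neg, map_one]
  have hB1 : ‖(B : K)‖ = 1 := by
    refine le_antisymm B.2 (not_lt.mp fun h => ?_)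
    have h0 := (hρ B).mpr h
    rw [hρB] at h0
    exact neg_ne_zero.mpr one_ne_zero h0
  have hC1 : ‖(C : K)‖ ≤ 1 := C.2
  have n1 : ‖(ζ - 1) * (B : K)‖ = ‖ζ - 1‖ := by rw [norm_mul, hB1, mul_one]
  have n2 : ‖(ζ - 1) ^ 2 * (C : K)‖ < ‖ζ - 1‖ := by
    rw [norm_mul, norm_pow]
    have e1 : ‖ζ - 1‖ ^ 2 * ‖(C : K)‖ ≤ ‖ζ - 1‖ ^ 2 := mul_le_of_le_one_right (by positivity) hC1
    have e2 : ‖ζ - 1‖ ^ 2 < ‖ζ - 1‖ := by nlinarith
    linarith
  rw [hG, IsUltrametricDist.norm_add_eq_max_of_norm_ne_norm (by rw [n1]; exact n2.ne'), n1, max_eq_left n2.le]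

end GJ
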