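import Pool.Agent.Lib.MP_4960c7_ag.GJ.Defs

/-!
# GJ-NF: roots of unity in a nonarchimedean field
-/

namespace GJ

variable {K : Type} [NormedField K] [IsUltrametricDist K] {p : ℕ} [hp : Fact p.Prime]

theorem norm_root {x : K} {n : ℕ} (hn : 0 < n) (h : x ^ n = 1) : ‖x‖ = 1 := by
  have h1 : ‖x‖ ^ n = 1 := by rw [← norm_pow, h, norm_one]
  exact (pow_eq_one_iff_of_nonneg (norm_nonneg x) hn.ne').mp h1

theorem norm_coprime (hpK : ‖(p : K)‖ < 1) {m : ℕ} (hm : m.Coprime p) : ‖(m : K)‖ = 1 := by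
  refine le_antisymm (IsUltrametricDist.norm_natCast_le_one K m) ?_
  by_contra hlt
  push Not at hlt
  have hb : (m : ℤ) * Nat.gcdA m p + (p : ℤ) * Nat.gcdB m p = 1 := by
    have := Nat.gcd_eq_gcd_ab m p
    rw [Nat.Coprime.gcd_eq_one hm] at this
    exact_mod_cast this.symm
  have hb' : (m : K) * ((Nat.gcdA m p : ℤ) : K) + (p : K) * ((Nat.gcdB m p : ℤ) : K) = 1 := by
    exact_mod_cast congrArg (Int.cast : ℤ → K) hb
  have h1 : ‖(m : K) * ((Nat.gcdA m p : ℤ) : K) + (p : K) * ((Nat.gcdB m p : ℤ) : K)‖ < 1 := by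
    refine lt_of_le_of_lt (IsUltrametricDist.norm_add_le_max _ _) (max_lt ?_ ?_)
    · rw [norm_mul]
      exact mul_lt_one_of_nonneg_of_lt_one_left (norm_nonneg _) hlt
        (IsUltrametricDist.norm_intCast_le_one K _)
    · rw [norm_mul]
      exact mul_lt_one_of_nonneg_of_lt_one_left (norm_nonneg _) hpK
        (IsUltrametricDist.norm_intCast_le_one K _)
  rw [hb', norm_one] at h1
  exact lt_irrefl _ h1

private theorem norm_pow_sub_one_le {x : K} (hx : ‖x‖ = 1) (k : ℕ) : ‖x ^ k - 1‖ ≤ ‖x - 1‖ := by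
  rw [← geom_sum_mul, norm_mul]
  refine mul_le_of_le_one_left (norm_nonneg _) ?_
  refine IsUltrametricDist.norm_sum_le_of_forall_le_of_nonneg zero_le_one fun i _ => ?_
  rw [norm_pow, hx, one_pow]

theorem norm_sub_one_of_coprime (hpK : ‖(p : K)‖ < 1) {m : ℕ} (hm : m.Coprime p) (hm0 : 0 < m) {η : K} (h : η ^ m = 1) (h1 : η ≠ 1) :
    ‖η - 1‖ = 1 := by
  have hη : ‖η‖ = 1 := norm_root hm0 h
  have hle : ‖η - 1‖ ≤ 1 := by
    rw [sub_eq_add_neg]
    refine le_trans (IsUltrametricDist.norm_add_le_max _ _) ?_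
    rw [norm_neg, hη, norm_one, max_self]
  refine le_antisymm hle ?_
  by_contra hlt
  push Not at hlt
  have hs : ∑ j ∈ Finset.range m, η ^ j = 0 := by
    have h2 := geom_sum_mul η m
    rw [h, sub_self] at h2
    exact (mul_eq_zero.mp h2).resolve_right (sub_ne_zero.mpr h1)
  have h3 : ∑ j ∈ Finset.range m, (η ^ j - 1) = -(m : K) := by
    rw [Finset.sum_sub_distrib, hs]
    simp
  have h4 : ‖∑ j ∈ Finset.range m, (η ^ j - 1)‖ ≤ ‖η - 1‖ :=
    IsUltrametricDist.norm_sum_le_of_forall_le_of_nonneg (norm_nonneg _)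
      fun i _ => norm_pow_sub_one_le hη i
  rw [h3, norm_neg, norm_coprime hpK hm] at h4
  exact absurd hlt (not_lt.mpr h4)

theorem norm_zeta [CharZero K] {ζ : K} (hζ : IsPrimitiveRoot ζ p) : ‖ζ - 1‖ ^ (p - 1) = ‖(p : K)‖ := by
  have hp1 : 0 < p := hp.out.pos
  obtain ⟨n, rfl⟩ : ∃ n, p = n + 1 := ⟨p - 1, by omega⟩
  have hn : ‖ζ‖ = 1 := norm_root hp1 hζ.pow_eq_one
  have hprod := hζ.prod_one_sub_pow_eq_order
  have hterm : ∀ k ∈ Finset.range n, ‖1 - ζ ^ (k + 1)‖ = ‖ζ - 1‖ := by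
    intro k hk
    rw [Finset.mem_range] at hk
    rw [norm_sub_rev]
    refine le_antisymm (norm_pow_sub_one_le hn _) ?_
    have hcop : (k + 1).Coprime (n + 1) := by
      rw [Nat.coprime_comm]
      exact (Nat.Prime.coprime_iff_not_dvd hp.out).mpr
        fun hd => absurd (Nat.le_of_dvd (Nat.succ_pos k) hd) (by omega)
    obtain ⟨l, hl⟩ : ∃ l : ℕ, (ζ ^ (k + 1)) ^ l = ζ := by
      have hprim : IsPrimitiveRoot (ζ ^ (k + 1)) (n + 1) := hζ.pow_of_coprime _ hcop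
      have : ∃ i < n + 1, (ζ ^ (k + 1)) ^ i = ζ :=
        hprim.eq_pow_of_pow_eq_one hζ.pow_eq_one
      obtain ⟨i, _, hi⟩ := this
      exact ⟨i, hi⟩
    have hn2 : ‖ζ ^ (k + 1)‖ = 1 := by rw [norm_pow, hn, one_pow]
    have := norm_pow_sub_one_le hn2 l
    rwa [hl] at this
  have h5 : ‖∏ k ∈ Finset.range n, (1 - ζ ^ (k + 1))‖ = ‖ζ - 1‖ ^ n := by
    rw [norm_prod, Finset.prod_congr rfl hterm, Finset.prod_const, Finset.card_range]
  rw [hprod] at h5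
  rw [Nat.add_sub_cancel, ← h5]
  push_cast
  rfl

theorem norm_zeta_lt [CharZero K] (hpK : ‖(p : K)‖ < 1) {ζ : K} (hζ : IsPrimitiveRoot ζ p) : ‖ζ - 1‖ < 1 ∧ 0 < ‖ζ - 1‖ := by
  constructor
  · by_contra hge
    push Not at hge
    have h1 : 1 ≤ ‖ζ - 1‖ ^ (p - 1) := one_le_pow₀ hge
    rw [norm_zeta hζ] at h1
    exact absurd hpK (not_lt.mpr h1)
  · rw [norm_pos_iff, sub_ne_zero]
    exact hζ.ne_one hp.out.one_lt

end GJ
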