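import Pool.Agent.Lib.MP_4960c7_ag.GJ.Defs

/-!
# GJ-PR: pairing

Strong induction on the cardinality of a finite set `s` of indices with the two properties (balanced, even): choose `i ∈ s`; if `inv (cls i) ≠ cls i`, choose `j ∈ s` with `cls j = inv (cls i)`; otherwise the indices with
self-inverse class are even in number (the others come in pairs of classes of equal size), choose `j ≠ i` among them.  Remove `i`, `j`.
-/

namespace GJ

/-- the pairing on a subset -/
private theorem PR_aux {ι C : Type} [DecidableEq ι] [DecidableEq C] (cls : ι → C) (inv : C → C) (hinv : ∀ x, inv (inv x) = x)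
    (s : Finset ι) : (∀ x, (s.filter fun j => cls j = x).card = (s.filter fun j => cls j = inv x).card) → Even s.card →
    ∃ σ : ι → ι, ∀ i ∈ s, σ i ∈ s ∧ σ (σ i) = i ∧ σ i ≠ i ∧
      (cls (σ i) = inv (cls i) ∨ (inv (cls i) = cls i ∧ inv (cls (σ i)) = cls (σ i))) := by
  induction s using Finset.strongInduction with
  | _ s ih =>
  intro hb he
  rcases s.eq_empty_or_nonempty with h0 | hne
  · subst h0
    exact ⟨id, fun i hi => absurd hi (Finset.notMem_empty i)⟩
  -- the two indices to remove
  obtain ⟨i, hi, j, hj, hij, hg⟩ : ∃ i ∈ s, ∃ j ∈ s, j ≠ i ∧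
      (cls j = inv (cls i) ∨ (inv (cls i) = cls i ∧ inv (cls j) = cls j)) := by
    by_cases h : ∃ i ∈ s, inv (cls i) ≠ cls i
    · obtain ⟨i, hi, hne'⟩ := h
      have h1 : 0 < (s.filter fun j => cls j = inv (cls i)).card := by
        rw [← hb]
        exact Finset.card_pos.2 ⟨i, Finset.mem_filter.2 ⟨hi, rfl⟩⟩
      obtain ⟨j, hj⟩ := Finset.card_pos.1 h1
      rw [Finset.mem_filter] at hj
      refine ⟨i, hi, j, hj.1, ?_, Or.inl hj.2⟩
      rintro rfl
      exact hne' hj.2.symm
    · push Not at h
      obtain ⟨i, hi⟩ := hne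
      have h1 : 1 < s.card := by
        obtain ⟨r, hr⟩ := he
        have := Finset.card_pos.2 ⟨i, hi⟩
        omega
      obtain ⟨j, hj, hji⟩ := Finset.exists_mem_ne h1 i
      exact ⟨i, hi, j, hj, hji, Or.inr ⟨h i hi, h j hj⟩⟩
  set t : Finset ι := (s.erase i).erase j with ht
  have hj' : j ∈ s.erase i := Finset.mem_erase.2 ⟨hij, hj⟩
  have hts : t ⊂ s := (Finset.erase_ssubset hj').trans (Finset.erase_ssubset hi)
  have hcard : t.card + 2 = s.card := by
    have h1 := Finset.card_erase_add_one hj'
    have h2 := Finset.card_erase_add_one hi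
    rw [← ht] at h1
    omega
  have hcnt : ∀ x, (s.filter fun k => cls k = x).card =
      (t.filter fun k => cls k = x).card + (if cls i = x then 1 else 0) + (if cls j = x then 1 else 0) := by
    intro x
    have h1 : s = insert i (insert j t) := by
      rw [ht, Finset.insert_erase hj', Finset.insert_erase hi]
    have hjt : j ∉ t := Finset.notMem_erase j _
    have hit : i ∉ insert j t := by
      rw [ht, Finset.insert_erase hj']
      exact Finset.notMem_erase i _
    rw [h1, Finset.filter_insert, Finset.filter_insert]
    have e1 : ∀ u : Finset ι, i ∉ u → (if cls i = x then insert i (u.filter fun k => cls k = x) else u.filter fun k => cls k = x).card =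
        (u.filter fun k => cls k = x).card + (if cls i = x then 1 else 0) := by
      intro u hu
      by_cases h : cls i = x
      · rw [if_pos h, if_pos h, Finset.card_insert_of_notMem fun h' => hu (Finset.mem_filter.1 h').1]
      · rw [if_neg h, if_neg h, add_zero]
    by_cases hjx : cls j = x
    · have hn : i ∉ insert j (t.filter fun k => cls k = x) := fun h' => hit (Finset.insert_subset_insert j (Finset.filter_subset _ _) h')
      have hn' : j ∉ t.filter fun k => cls k = x := fun h' => hjt (Finset.mem_filter.1 h').1
      rw [if_pos hjx, if_pos hjx]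
      by_cases h : cls i = x
      · rw [if_pos h, if_pos h, Finset.card_insert_of_notMem hn, Finset.card_insert_of_notMem hn']
      · rw [if_neg h, if_neg h, Finset.card_insert_of_notMem hn', add_zero]
    · rw [if_neg hjx, if_neg hjx, add_zero]
      exact e1 t fun h' => hit (Finset.mem_insert_of_mem h')
  have hbt : ∀ x, (t.filter fun k => cls k = x).card = (t.filter fun k => cls k = inv x).card := by
    intro x
    have h1 := hb x
    rw [hcnt x, hcnt (inv x)] at h1
    have hiff : ∀ y : C, (inv y = x) ↔ (y = inv x) := by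
      intro y
      constructor
      · intro h
        rw [← h, hinv]
      · intro h
        rw [h, hinv]
    have h2 : (if cls i = x then 1 else 0) + (if cls j = x then 1 else 0) =
        (if cls i = inv x then 1 else 0) + (if cls j = inv x then (1 : ℕ) else 0) := by
      rcases hg with hg | ⟨hg1, hg2⟩
      · have e1 : (cls j = x) ↔ (cls i = inv x) := by rw [hg]; exact hiff _
        have e2 : (cls j = inv x) ↔ (cls i = x) := by
          rw [hg]
          constructor
          · intro h
            have h5 := congrArg inv h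
            rwa [hinv, hinv] at h5
          · intro h
            rw [h]
        simp only [e1, e2]
        exact add_comm _ _
      · have e1 : (cls i = x) ↔ (cls i = inv x) := by rw [← hiff, hg1]
        have e2 : (cls j = x) ↔ (cls j = inv x) := by rw [← hiff, hg2]
        simp only [e1, e2]
    omega
  have het : Even t.card := by
    obtain ⟨r, hr⟩ := he
    exact ⟨r - 1, by omega⟩
  obtain ⟨σ, hσ⟩ := ih t hts hbt het
  have hmem : ∀ k ∈ s, k ≠ i → k ≠ j → k ∈ t := fun k hk h1 h2 =>
    Finset.mem_erase.2 ⟨h2, Finset.mem_erase.2 ⟨h1, hk⟩⟩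
  have hti : ∀ k ∈ t, k ≠ i := fun k hk => (Finset.mem_erase.1 (Finset.mem_erase.1 hk).2).1
  have htj : ∀ k ∈ t, k ≠ j := fun k hk => (Finset.mem_erase.1 hk).1
  let τ : ι → ι := fun k => if k = i then j else if k = j then i else σ k
  have τi : τ i = j := if_pos rfl
  have τj : τ j = i := by
    show (if j = i then j else if j = j then i else σ j) = i
    rw [if_neg hij, if_pos rfl]
  have τk : ∀ k ∈ t, τ k = σ k := by
    intro k hk
    show (if k = i then j else if k = j then i else σ k) = σ k
    rw [if_neg (hti k hk), if_neg (htj k hk)]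
  refine ⟨τ, fun k hk => ?_⟩
  by_cases hki : k = i
  · subst hki
    rw [τi, τj]
    exact ⟨hj, rfl, hij, hg⟩
  · by_cases hkj : k = j
    · subst hkj
      rw [τj, τi]
      refine ⟨hi, rfl, hij.symm, ?_⟩
      rcases hg with hg | ⟨hg1, hg2⟩
      · left
        rw [hg, hinv]
      · exact Or.inr ⟨hg2, hg1⟩
    · have hkt := hmem k hk hki hkj
      obtain ⟨h1, h2, h3, h4⟩ := hσ k hkt
      rw [τk k hkt, τk _ h1]
      exact ⟨hts.1 h1, h2, h3, h4⟩

theorem pairing {ι C : Type} [Fintype ι] [DecidableEq ι] [DecidableEq C] (cls : ι → C) (inv : C → C) (hinv : ∀ x, inv (inv x) = x)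
    (bal : ∀ i, (Finset.univ.filter fun j => cls j = cls i).card = (Finset.univ.filter fun j => cls j = inv (cls i)).card)
    (he : Even (Fintype.card ι)) :
    ∃ σ : ι → ι, ∀ i, σ (σ i) = i ∧ σ i ≠ i ∧ (cls (σ i) = inv (cls i) ∨ (inv (cls i) = cls i ∧ inv (cls (σ i)) = cls (σ i))) := by
  classical
  have hb : ∀ x, (Finset.univ.filter fun j => cls j = x).card = (Finset.univ.filter fun j => cls j = inv x).card := by
    intro x
    by_cases h : ∃ i, cls i = x
    · obtain ⟨i, rfl⟩ := h
      exact bal i
    · by_cases h' : ∃ i, cls i = inv x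
      · obtain ⟨i, hi⟩ := h'
        have h1 := bal i
        rw [hi, hinv] at h1
        exact h1.symm
      · push Not at h h'
        rw [Finset.filter_false_of_mem fun j _ => h j, Finset.filter_false_of_mem fun j _ => h' j]
  obtain ⟨σ, hσ⟩ := PR_aux cls inv hinv Finset.univ hb (by rwa [Finset.card_univ])
  exact ⟨σ, fun i => (hσ i (Finset.mem_univ i)).2⟩

end GJ
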