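import Pool.Agent.Lib.MP_4960c7_ag.GJ.GB
import Pool.Agent.Lib.MP_4960c7_ag.GJ.DG

/-!
# GJ-ST: Stickelberger's theorem on the norms of Gauss sums

`g a = ‖gaussSum (ω⁻¹ ^ a) ψ‖`.  `g (a + b) ≥ g a * g b` (`gs_super`), `g (p a) = g a` (`gs_frob`), `g 1 = ‖ζ - 1‖ = ϖ`, so `g a ≥ ϖ ^ (digit sum of a)` by strong induction (`a = a % p + p (a / p)`,
`Nat.digits_add_two_add_one` or `Nat.digits_def'`).  `g a * g (q-1-a) = ‖q‖ = ϖ^((p-1) f)` for `0 < a < q - 1`, and the digit sums of `a`, `q-1-a` add up to `(p-1) f` (`digit_shift`, `SS_compl`), so equality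
holds.  For `a = c (q-1)/ℓ`: `g a ^ ℓ = ϖ ^ (ℓ s(a)) = ϖ ^ ((p-1) SS p f ℓ c) = ‖p‖ ^ SS p f ℓ c` (`SS_frac`: `ℓ s(a) (q-1) = ℓ (p-1) SS (q-1) a = (p-1)(q-1) SS ℓ c`).
For `q = 2` there is no `ℓ` with `0 < c < ℓ`, `ℓ ∣ 1`.
-/

namespace GJ

variable {K : Type} [NormedField K] [IsUltrametricDist K] [CharZero K] {p : ℕ} [hp : Fact p.Prime] {F : Type} [Field F] [Fintype F] [Algebra (ZMod p) F]

/-- a function with the formal properties of the norms of the Gauss sums is at least `ϖ ^ (digit sum)` -/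
private theorem ST_low {g : ℕ → ℝ} {ϖ : ℝ} (h0 : 0 < ϖ) (hg0 : g 0 = 1) (hg1 : g 1 = ϖ) (hs : ∀ a b, g a * g b ≤ g (a + b))
    (hp1 : 1 < p) (hf : ∀ a, g (p * a) = g a) (hnn : ∀ a, 0 ≤ g a) (a : ℕ) : ϖ ^ (p.digits a).sum ≤ g a := by
  have h1 : ∀ r, ϖ ^ r ≤ g r := by
    intro r
    induction r with
    | zero => rw [pow_zero, hg0]
    | succ r ih =>
      rw [pow_succ]
      refine le_trans ?_ (hs r 1)
      rw [hg1]
      exact mul_le_mul_of_nonneg_right ih h0.le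
  induction a using Nat.strong_induction_on with
  | _ a ih =>
    rcases Nat.eq_zero_or_pos a with rfl | ha
    · simp [hg0]
    · rw [Nat.digits_def' hp1 ha, List.sum_cons, pow_add]
      have h2 := ih (a / p) (Nat.div_lt_self ha hp1)
      have h3 := hs (a % p) (p * (a / p))
      rw [Nat.mod_add_div, hf] at h3
      exact le_trans (mul_le_mul (h1 _) h2 (pow_nonneg h0.le _) (hnn _)) h3

/-- complementary digit sums -/
private theorem ST_dig {f a : ℕ} (hp1 : 1 < p) (hf : 0 < f) (ha : 0 < a) (haq : a < p ^ f - 1) :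
    (p.digits a).sum + (p.digits (p ^ f - 1 - a)).sum = (p - 1) * f := by
  have hm : 0 < p ^ f - 1 := by omega
  have hcop : Nat.Coprime p (p ^ f - 1) := by
    have h1 : 1 ≤ p ^ f := Nat.one_le_pow _ _ (by omega)
    have h2 : Nat.Coprime (p ^ f) (p ^ f - 1) := by
      rw [Nat.coprime_comm]
      have := Nat.coprime_self_add_right (m := p ^ f - 1) (n := 1)
      have h3 : p ^ f = (p ^ f - 1) + 1 := by omega
      rw [h3]
      simp
    exact Nat.Coprime.coprime_dvd_left (dvd_pow_self p hf.ne') h2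
  have h1 := digit_shift (a := a) hp1 hf haq
  have h2 := digit_shift (a := p ^ f - 1 - a) hp1 hf (by omega)
  have h3 := SS_compl (f := f) hm hcop ha haq
  have h4 : ((p.digits a).sum + (p.digits (p ^ f - 1 - a)).sum) * (p ^ f - 1) = ((p - 1) * f) * (p ^ f - 1) := by
    rw [add_mul, ← h1, ← h2, ← mul_add, h3]
    ring
  exact Nat.eq_of_mul_eq_mul_right hm h4

theorem stick (hpK : ‖(p : K)‖ < 1) {ζ : K} (hζ : IsPrimitiveRoot ζ p) (ω : MulChar F K) (hω : ∀ x, ω x ∈ OK K)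
    (ho : orderOf ω = Fintype.card F - 1) {k : Type} [Field k] (ρ : OK K →+* k) (iF : F →+* k) (hρ : ∀ y : OK K, ρ y = 0 ↔ ‖(y : K)‖ < 1)
    (hi : ∀ x, ρ ⟨ω x, hω x⟩ = iF x) {f ℓ c : ℕ} (hf : Fintype.card F = p ^ f) (hℓ : ℓ ∣ Fintype.card F - 1) (hc : 0 < c) (hcl : c < ℓ) :
    ‖gaussSum (ω⁻¹ ^ (c * ((Fintype.card F - 1) / ℓ))) (psi p F hζ.pow_eq_one)‖ ^ ℓ = ‖(p : K)‖ ^ SS p f ℓ c := by
  have hp1 : 1 < p := hp.out.one_lt
  have hcard : 1 < Fintype.card F := Fintype.one_lt_card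
  have hℓ0 : 0 < ℓ := by omega
  obtain ⟨e, he⟩ := hℓ
  have he0 : 0 < e := by
    rcases Nat.eq_zero_or_pos e with rfl | h
    · omega
    · exact h
  have hdiv : (Fintype.card F - 1) / ℓ = e := by
    rw [he, Nat.mul_div_cancel_left _ hℓ0]
  have h2 : 2 < Fintype.card F := by
    have h3 : 2 ≤ ℓ := by omega
    have h4 : 2 * 1 ≤ ℓ * e := Nat.mul_le_mul h3 he0
    omega
  have hf0 : 0 < f := by
    rcases Nat.eq_zero_or_pos f with rfl | h
    · rw [pow_zero] at hf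
      omega
    · exact h
  obtain ⟨hϖ1, hϖ0⟩ := norm_zeta_lt hpK hζ
  have hϖp := norm_zeta hζ
  set g : ℕ → ℝ := fun a => ‖gaussSum (ω⁻¹ ^ a) (psi p F hζ.pow_eq_one)‖ with hg
  have hg0 : g 0 = 1 := by
    show ‖gaussSum (ω⁻¹ ^ 0) (psi p F hζ.pow_eq_one)‖ = 1
    rw [pow_zero, gs_triv hζ, norm_neg, norm_one]
  have hg1 : g 1 = ‖ζ - 1‖ := by
    show ‖gaussSum (ω⁻¹ ^ 1) (psi p F hζ.pow_eq_one)‖ = ‖ζ - 1‖
    rw [pow_one]
    exact gs_teich hpK hζ h2 ω hω ho ρ iF hρ hi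
  have hgs : ∀ a b, g a * g b ≤ g (a + b) := by
    intro a b
    have h := gs_super hζ (ω⁻¹ ^ a) (ω⁻¹ ^ b)
    rw [← pow_add] at h
    exact h
  have hgf : ∀ a, g (p * a) = g a := by
    intro a
    show ‖gaussSum (ω⁻¹ ^ (p * a)) (psi p F hζ.pow_eq_one)‖ = ‖gaussSum (ω⁻¹ ^ a) (psi p F hζ.pow_eq_one)‖
    rw [mul_comm, pow_mul, gs_frob]
  have hnn : ∀ a, 0 ≤ g a := fun a => norm_nonneg _
  have hlow : ∀ a, ‖ζ - 1‖ ^ (p.digits a).sum ≤ g a := ST_low hϖ0 hg0 hg1 hgs hp1 hgf hnn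
  have hq : ‖(Fintype.card F : K)‖ = ‖ζ - 1‖ ^ ((p - 1) * f) := by
    rw [hf, Nat.cast_pow, norm_pow, ← hϖp, pow_mul]
  have hω1 : ω⁻¹ ^ (Fintype.card F - 1) = 1 := by
    rw [inv_pow, ← ho, pow_orderOf_eq_one, inv_one]
  have heq : ∀ a, 0 < a → a < Fintype.card F - 1 → g a = ‖ζ - 1‖ ^ (p.digits a).sum := by
    intro a ha haq
    have hne : ω⁻¹ ^ a ≠ 1 := by
      intro h
      rw [inv_pow, inv_eq_one] at h
      have h1 := orderOf_dvd_of_pow_eq_one h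
      rw [ho] at h1
      exact absurd (Nat.le_of_dvd ha h1) (by omega)
    have hinv : (ω⁻¹ ^ a)⁻¹ = ω⁻¹ ^ (Fintype.card F - 1 - a) := by
      rw [inv_eq_iff_mul_eq_one, ← pow_add]
      have h1 : a + (Fintype.card F - 1 - a) = Fintype.card F - 1 := by omega
      rw [h1, hω1]
    have h1 := gs_compl hζ hne
    rw [hinv, hq] at h1
    have h3 := hlow a
    have h4 := hlow (Fintype.card F - 1 - a)
    have h5 : (p.digits a).sum + (p.digits (Fintype.card F - 1 - a)).sum = (p - 1) * f := by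
      rw [hf] at haq ⊢
      exact ST_dig hp1 hf0 ha haq
    rw [← h5, pow_add] at h1
    refine le_antisymm ?_ h3
    by_contra h6
    have h6' := not_le.1 h6
    have h7 : ‖ζ - 1‖ ^ (p.digits a).sum * ‖ζ - 1‖ ^ (p.digits (Fintype.card F - 1 - a)).sum <
        g a * g (Fintype.card F - 1 - a) :=
      mul_lt_mul h6' h4 (pow_pos hϖ0 _) (hnn _)
    exact absurd h1 h7.ne'
  have ha0 : 0 < c * e := Nat.mul_pos hc he0
  have haq : c * e < Fintype.card F - 1 := by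
    rw [he]
    exact Nat.mul_lt_mul_of_pos_right hcl he0
  have h3 := heq (c * e) ha0 haq
  rw [hdiv]
  have h4 : ‖gaussSum (ω⁻¹ ^ (c * e)) (psi p F hζ.pow_eq_one)‖ = ‖ζ - 1‖ ^ (p.digits (c * e)).sum := h3
  rw [h4, ← pow_mul, ← hϖp, ← pow_mul]
  congr 1
  have h5 := digit_shift (p := p) (f := f) (a := c * e) hp1 hf0 (by rw [← hf]; exact haq)
  have h6 := SS_frac (p := p) (f := f) (m := p ^ f - 1) (ℓ := ℓ) (c := c) hℓ0 (by rw [← hf, he]; exact Dvd.intro e rfl)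
  rw [← hf, hdiv] at h6
  rw [← hf] at h5
  have hm : 0 < Fintype.card F - 1 := by omega
  refine Nat.eq_of_mul_eq_mul_right hm ?_
  calc (p.digits (c * e)).sum * ℓ * (Fintype.card F - 1) = ℓ * ((p.digits (c * e)).sum * (Fintype.card F - 1)) := by ring
    _ = ℓ * ((p - 1) * SS p f (Fintype.card F - 1) (c * e)) := by rw [h5]
    _ = (p - 1) * (ℓ * SS p f (Fintype.card F - 1) (c * e)) := by ring
    _ = (p - 1) * ((Fintype.card F - 1) * SS p f ℓ c) := by rw [h6]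
    _ = (p - 1) * SS p f ℓ c * (Fintype.card F - 1) := by ring

end GJ
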