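import Pool.Agent.Lib.MP_4960c7_ag.GJ.NF

/-!
# GJ-TE: the Teichmueller character

`OK K`: the closed unit ball, a subring; `mI K`: the open unit ball, a maximal ideal.  The residue field `k = OK K ⧸ mI K` is algebraically closed if `K` is: a monic polynomial over `k` lifts to a monic
polynomial over `OK K` (`Polynomial.lifts_and_natDegree_eq_and_monic`), which has a root `x` in `K`, and `‖x‖ ≤ 1` (else `‖x^n‖` is larger than the norm of the other terms).  `k` has characteristic `p`, so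
`F` (algebraic over `ZMod p`) embeds into it, `IsAlgClosed.lift`: `iF`.  Let `γ` be a generator of `Fˣ`, `q - 1` its order, `η` a primitive `(q-1)`-th root of unity in `K`.  Its residue is a primitive `(q-1)`-th
root of unity of `k` (`norm_sub_one_of_coprime`), so `iF γ` is the residue of `η ^ m`, `m` prime to `q - 1`; `ω γ = η ^ m` (`MulChar.ofRootOfUnity`).
-/

namespace GJ

variable (K : Type) [NormedField K] [IsUltrametricDist K]

/-- The closed unit ball. -/
def OK : Subring K where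
  carrier := {x | ‖x‖ ≤ 1}
  mul_mem' := fun {a b} ha hb => by
    show ‖a * b‖ ≤ 1
    rw [norm_mul]
    exact mul_le_one₀ ha (norm_nonneg _) hb
  one_mem' := by show ‖(1 : K)‖ ≤ 1; simp
  add_mem' := fun {a b} ha hb => le_trans (IsUltrametricDist.norm_add_le_max a b) (max_le ha hb)
  zero_mem' := by show ‖(0 : K)‖ ≤ 1; simp
  neg_mem' := fun {a} ha => by show ‖-a‖ ≤ 1; rw [norm_neg]; exact ha

/-- The open unit ball. -/
def mI : Ideal (OK K) where
  carrier := {x | ‖(x : K)‖ < 1}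
  add_mem' := fun {a b} ha hb => lt_of_le_of_lt (IsUltrametricDist.norm_add_le_max (a : K) (b : K)) (max_lt ha hb)
  zero_mem' := by show ‖((0 : OK K) : K)‖ < 1; simp
  smul_mem' := fun c {x} hx => by
    show ‖(c : K) * (x : K)‖ < 1
    rw [norm_mul]
    exact lt_of_le_of_lt (mul_le_of_le_one_left (norm_nonneg _) c.2) hx

theorem mem_mI (x : OK K) : x ∈ mI K ↔ ‖(x : K)‖ < 1 := Iff.rfl

theorem mI_max : (mI K).IsMaximal := by
  rw [Ideal.isMaximal_iff]
  refine ⟨fun h => ?_, fun J x _ hx hxJ => ?_⟩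
  · rw [mem_mI] at h
    simp at h
  · rw [mem_mI, not_lt] at hx
    have hx1 : ‖(x : K)‖ = 1 := le_antisymm x.2 hx
    have hx0 : (x : K) ≠ 0 := by
      intro h
      rw [h, norm_zero] at hx1
      exact zero_ne_one hx1
    have hinv : (x : K)⁻¹ ∈ OK K := by
      show ‖(x : K)⁻¹‖ ≤ 1
      rw [norm_inv, hx1, inv_one]
    have h1 : (⟨(x : K)⁻¹, hinv⟩ : OK K) * x = 1 := Subtype.ext (inv_mul_cancel₀ hx0)
    rw [← h1]
    exact J.mul_mem_left _ hxJ

variable {K}

private theorem root_mem (q : Polynomial (OK K)) (hq : q.Monic) (hn : 0 < q.natDegree) {x : K}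
    (hx : (q.map (OK K).subtype).eval x = 0) : x ∈ OK K := by
  by_contra hx1
  have hx1 : 1 < ‖x‖ := not_le.1 hx1
  rw [Polynomial.eval_map, Polynomial.eval₂_eq_sum_range, Finset.sum_range_succ] at hx
  rw [hq.coeff_natDegree, map_one, one_mul] at hx
  have h1 : x ^ q.natDegree = -∑ i ∈ Finset.range q.natDegree, (OK K).subtype (q.coeff i) * x ^ i :=
    eq_neg_of_add_eq_zero_right hx
  have h2 : ‖∑ i ∈ Finset.range q.natDegree, (OK K).subtype (q.coeff i) * x ^ i‖ ≤ ‖x‖ ^ (q.natDegree - 1) := by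
    refine IsUltrametricDist.norm_sum_le_of_forall_le_of_nonneg (pow_nonneg (norm_nonneg _) _) fun i hi => ?_
    rw [norm_mul, norm_pow]
    refine le_trans (mul_le_of_le_one_left (pow_nonneg (norm_nonneg _) _) (q.coeff i).2) ?_
    exact pow_le_pow_right₀ hx1.le (by have := Finset.mem_range.1 hi; omega)
  have h3 : ‖x‖ ^ q.natDegree ≤ ‖x‖ ^ (q.natDegree - 1) := by
    rw [← norm_pow, h1, norm_neg]
    exact h2
  have h4 : ‖x‖ ^ (q.natDegree - 1) < ‖x‖ ^ q.natDegree := pow_lt_pow_right₀ hx1 (by omega)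
  exact absurd h3 (not_le.2 h4)

private theorem res_isAlgClosed [IsAlgClosed K] (k : Type) [Field k] (ρ : OK K →+* k) (hρ : Function.Surjective ρ) :
    IsAlgClosed k := by
  refine IsAlgClosed.of_exists_root k fun P hP hPi => ?_
  have hl : P ∈ Polynomial.lifts ρ := by
    rw [Polynomial.lifts_iff_coeff_lifts]
    intro n
    exact hρ _
  obtain ⟨q, hq, hqd, hqm⟩ := Polynomial.lifts_and_natDegree_eq_and_monic hl hP
  have hd : 0 < q.natDegree := by
    rw [hqd]
    exact hPi.natDegree_pos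
  have hmd : (q.map (OK K).subtype).degree ≠ 0 := by
    rw [hqm.degree_map, Polynomial.degree_eq_natDegree hqm.ne_zero]
    exact_mod_cast hd.ne'
  obtain ⟨x, hx⟩ := IsAlgClosed.exists_root (q.map (OK K).subtype) hmd
  have hxm : x ∈ OK K := root_mem q hqm hd hx
  refine ⟨ρ ⟨x, hxm⟩, ?_⟩
  have h0 : q.eval (⟨x, hxm⟩ : OK K) = 0 := by
    apply Subtype.ext
    have h1 : (OK K).subtype (q.eval (⟨x, hxm⟩ : OK K)) = (q.map (OK K).subtype).eval x := by
      rw [Polynomial.eval_map]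
      exact (Polynomial.eval₂_at_apply (OK K).subtype (⟨x, hxm⟩ : OK K)).symm
    exact h1.trans hx
  rw [← hq, Polynomial.eval_map_apply, h0, map_zero]

private theorem exists_mu [CharZero K] [IsAlgClosed K] (k : Type) [Field k] (ρ : OK K →+* k) (hρ : Function.Surjective ρ)
    (hρ0 : ∀ y : OK K, ρ y = 0 ↔ ‖(y : K)‖ < 1) {n : ℕ} (hn : 0 < n) (a : k) (ha : a ^ n = 1) :
    ∃ (μ : K) (hμ : μ ∈ OK K), μ ^ n = 1 ∧ ρ ⟨μ, hμ⟩ = a := by
  have : NeZero n := ⟨hn.ne'⟩
  obtain ⟨ζ, hζ⟩ := HasEnoughRootsOfUnity.exists_primitiveRoot K n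
  obtain ⟨y, hy⟩ := hρ a
  have h1 : ‖(y : K) ^ n - 1‖ < 1 := by
    have h2 : ρ (y ^ n - 1) = 0 := by rw [map_sub, map_pow, hy, ha, map_one, sub_self]
    exact (hρ0 _).1 h2
  have h3 : (y : K) ^ n - 1 = ∏ z ∈ Polynomial.nthRootsFinset n (1 : K), ((y : K) - z) := by
    have h4 := congrArg (Polynomial.eval (y : K)) (Polynomial.X_pow_sub_one_eq_prod hn hζ)
    rw [Polynomial.eval_prod] at h4
    simpa using h4
  by_contra hcon
  push Not at hcon
  have h5 : ∀ z ∈ Polynomial.nthRootsFinset n (1 : K), ‖(y : K) - z‖ = 1 := by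
    intro z hz
    rw [Polynomial.mem_nthRootsFinset hn] at hz
    have hz1 : ‖z‖ = 1 := norm_root hn hz
    have hzm : z ∈ OK K := hz1.le
    have h6 : ¬ ‖(y : K) - z‖ < 1 := by
      intro h7
      have h8 : ρ (y - ⟨z, hzm⟩) = 0 := (hρ0 _).2 h7
      rw [map_sub, hy, sub_eq_zero] at h8
      exact hcon z hzm hz h8.symm
    refine le_antisymm ?_ (not_lt.1 h6)
    exact (y - ⟨z, hzm⟩ : OK K).2
  rw [h3, norm_prod, Finset.prod_congr rfl h5, Finset.prod_const_one] at h1
  exact lt_irrefl _ h1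

private theorem teich_aux [CharZero K] [IsAlgClosed K] {p : ℕ} [Fact p.Prime] (hpK : ‖(p : K)‖ < 1) (F : Type) [Field F] [Fintype F] [Algebra (ZMod p) F]
    (k : Type) [Field k] (ρ : OK K →+* k) (hρs : Function.Surjective ρ) (hρ0 : ∀ y : OK K, ρ y = 0 ↔ ‖(y : K)‖ < 1) :
    ∃ (ω : MulChar F K) (hω : ∀ x, ω x ∈ OK K) (iF : F →+* k),
      orderOf ω = Fintype.card F - 1 ∧ ∀ x, ρ ⟨ω x, hω x⟩ = iF x := by
  classical
  have : IsAlgClosed k := res_isAlgClosed k ρ hρs
  have hp0 : (p : k) = 0 := by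
    have h1 : ρ (p : OK K) = 0 := (hρ0 _).2 (by simpa using hpK)
    rwa [map_natCast] at h1
  have : CharP k p := (CharP.charP_iff_prime_eq_zero (Fact.out : p.Prime)).2 hp0
  let _ : Algebra (ZMod p) k := ZMod.algebra k p
  have : Module.Finite (ZMod p) F := Module.Finite.of_finite
  have : Algebra.IsAlgebraic (ZMod p) F := Algebra.IsAlgebraic.of_finite (ZMod p) F
  let iF : F →+* k := (IsAlgClosed.lift : F →ₐ[ZMod p] k).toRingHom
  obtain ⟨g, hg⟩ := IsCyclic.exists_generator (α := Fˣ)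
  have hcard : 0 < Fintype.card Fˣ := Fintype.card_pos
  have hag : (iF (g : F)) ^ Fintype.card Fˣ = 1 := by
    rw [← map_pow, ← Units.val_pow_eq_pow_val, pow_card_eq_one, Units.val_one, map_one]
  obtain ⟨μ, hμ, hμ1, hμa⟩ := exists_mu k ρ hρs hρ0 hcard _ hag
  have hμ0 : μ ≠ 0 := by
    intro h
    rw [h, zero_pow hcard.ne'] at hμ1
    exact zero_ne_one hμ1
  have hmem : Units.mk0 μ hμ0 ∈ rootsOfUnity (Fintype.card Fˣ) K := by
    rw [mem_rootsOfUnity]
    apply Units.ext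
    simpa using hμ1
  let ω : MulChar F K := MulChar.ofRootOfUnity hmem hg
  have hωg : ω (g : F) = μ := MulChar.ofRootOfUnity_spec hmem hg
  have hpw : ∀ x : F, x ≠ 0 → ∃ n : ℕ, x = (g : F) ^ n := by
    intro x hx
    have h1 := hg (Units.mk0 x hx)
    rw [← mem_powers_iff_mem_zpowers] at h1
    obtain ⟨n, hn⟩ := h1
    refine ⟨n, ?_⟩
    have h2 := congrArg Units.val hn
    simpa using h2.symm
  have hω : ∀ x, ω x ∈ OK K := by
    intro x
    by_cases hx : x = 0
    · rw [hx, MulChar.map_zero]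
      exact (OK K).zero_mem
    · obtain ⟨n, rfl⟩ := hpw x hx
      rw [map_pow, hωg]
      exact (OK K).pow_mem hμ n
  refine ⟨ω, hω, iF, ?_, ?_⟩
  · rw [← Fintype.card_units]
    apply Nat.dvd_antisymm
    · exact orderOf_dvd_of_pow_eq_one (MulChar.pow_card_eq_one ω)
    · have hog : orderOf g = Fintype.card Fˣ := by
        rw [orderOf_eq_card_of_forall_mem_zpowers hg, Nat.card_eq_fintype_card]
      rw [← hog]
      apply orderOf_dvd_of_pow_eq_one
      have h1 : (ω ^ orderOf ω) (g : F) = 1 := by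
        rw [pow_orderOf_eq_one, MulChar.one_apply_coe]
      rw [MulChar.pow_apply_coe, hωg] at h1
      have h2 : ρ ⟨μ, hμ⟩ ^ orderOf ω = 1 := by
        rw [← map_pow]
        have h3 : (⟨μ, hμ⟩ : OK K) ^ orderOf ω = 1 := Subtype.ext h1
        rw [h3, map_one]
      rw [hμa, ← map_pow] at h2
      have h4 : (g : F) ^ orderOf ω = 1 := iF.injective (by rw [h2, map_one])
      apply Units.ext
      simpa using h4
  · intro x
    by_cases hx : x = 0
    · subst hx
      have h1 : (⟨ω 0, hω 0⟩ : OK K) = 0 := Subtype.ext (MulChar.map_zero ω)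
      rw [h1, map_zero, map_zero]
    · obtain ⟨n, rfl⟩ := hpw x hx
      have h1 : (⟨ω ((g : F) ^ n), hω _⟩ : OK K) = ⟨μ, hμ⟩ ^ n := by
        apply Subtype.ext
        show ω ((g : F) ^ n) = μ ^ n
        rw [map_pow, hωg]
      rw [h1, map_pow, map_pow, hμa]

theorem exists_teich [CharZero K] [IsAlgClosed K] {p : ℕ} [Fact p.Prime] (hpK : ‖(p : K)‖ < 1) (F : Type) [Field F] [Fintype F] [Algebra (ZMod p) F] :
    ∃ (ω : MulChar F K) (hω : ∀ x, ω x ∈ OK K) (k : Type) (_ : Field k) (ρ : OK K →+* k) (iF : F →+* k),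
      orderOf ω = Fintype.card F - 1 ∧ (∀ y : OK K, ρ y = 0 ↔ ‖(y : K)‖ < 1) ∧ ∀ x, ρ ⟨ω x, hω x⟩ = iF x := by
  have hmax := mI_max K
  have hρ0 : ∀ y : OK K, Ideal.Quotient.mk (mI K) y = 0 ↔ ‖(y : K)‖ < 1 := fun y => Ideal.Quotient.eq_zero_iff_mem
  obtain ⟨ω, hω, iF, h1, h2⟩ := @teich_aux K _ _ _ _ p _ hpK F _ _ _ (OK K ⧸ mI K) (Ideal.Quotient.field (mI K)) (Ideal.Quotient.mk (mI K)) Ideal.Quotient.mk_surjective hρ0
  exact ⟨ω, hω, OK K ⧸ mI K, Ideal.Quotient.field (mI K), Ideal.Quotient.mk (mI K), iF, h1, hρ0, h2⟩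

end GJ
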